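import Mathlib
import Pool.Agent.Y733.VH.Cnt
import Pool.Agent.W469.CV.REL
import Pool.Agent.W223.AC.MasterK
import Pool.Agent.W223.AC.Key
import Pool.Agent.W223.AC.Split
import Pool.Agent.W976.AC.EX
import Pool.Agent.W460.AC.NORM
import Pool.Agent.W597.AC.LOC
import Pool.Agent.W193.AC.FINQ
import Pool.Agent.W398.AC.DIM
import Pool.Agent.W131.AC.GROW
import Pool.Agent.W395.AC.LOCM
import Pool.Agent.W989.AC.MULT
import Pool.Agent.W410.AC.HTG
import Pool.Agent.W803.AC.SUMN

/-!
# The truncated Vojta inequality with discriminant term on all curves, over all number fields of all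
# degrees, with absolute constants

Let `X` be a smooth projective curve over a number field, `D` a reduced effective divisor on `X`
and `t : X → ℙ¹` a finite map of degree `N` over `ℚ` which is unramified outside the fibres over
finitely many rational points `a_1, …, a_q`, `q ≥ 3`, and maps the points of `D` to the `a_j` (such
a map exists by Belyi's theorem, with `q = 3`; we may suppose that `a_j ≠ ∞`). Let `A` be the ring
of functions on `X` with poles only over `∞`: a Dedekind domain, finite over `ℚ[t]`. If `E_j` is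
the ideal of the points over `a_j` which are not points of `D`, then
`(deg (K_X + D)) / N = q - 2 - (∑_j dim (A / E_j)) / N`.

The points `P` of `X` (not over `∞`) over a number field `L` are the homomorphisms `φ : A → L`.
All number fields `K`, of all degrees `n`, are considered at once: the constants below depend only
on the curve, the divisor, the map, `ε` and `c`, and not on `K` or `n`. Let `0 ≤ θ ≤ 2`. We prove
that for all but at most `(C B ^ (2 - 2 θ / q - ε / (2 q))) ^ n` of the elements `x` of `K` of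
absolute height at most `B` the following holds: all points `P` of `X` with `t(P) = x`, all number
fields `L ⊇ K` over which `P` is defined and all finite sets `S` of primes satisfy
`(q - θ - (∑_j dim (A / E_j)) / N) h(x) ≤ N_S^{(1)}(D, P) / [L : ℚ] + d(L) + ε h(x) +
∑_{p ∈ S} log p + c`.
For `θ = 2` this is the inequality `h_{K_X + D}(P) ≤ N_S^{(1)}(D, P) + d(P) + ε h(P) + c_S` of the
conjecture, for points of unbounded degree, with at most `(C B ^ (2 / 3)) ^ n` exceptional `x` if
`q = 3`; for `θ = 0` it is stronger by `2 h(x)`, and still holds for almost all `x`: there are about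
`(B ^ 2 / δ_K) ^ n` elements `x`, where `δ_K` is the root discriminant.

Proof. The truncated counting function of `D` at `P`, plus the discriminant of `L`, is at least the
truncated counting function of `[a_1] + … + [a_q]` at `x` minus the contribution of the `E_j`, up to
`ε h + O(1)`, uniformly in `L` (libraries `AC`, `CV`, `VD` of the starting files). If the inequality
fails, then there are two indices `i ≠ j` such that the radical of the numerator and denominator of
the image of `x` under the Moebius map which takes `a_i`, `a_j` to `0`, `∞` is small. The number of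
such elements is estimated by the counts of ideals and units of `Y733/UD`, which are uniform in all
number fields.
-/

set_option autoImplicit false

namespace Pool.Agent.Results.MP_44a246_nt.AllFieldsAllDegrees

open Polynomial IsDedekindDomain NumberField

/-- The absolute logarithmic Weil height `h(x)`. -/
noncomputable def height {K : Type} [Field K] [NumberField K] (x : K) : ℝ :=
  (1 / (Module.finrank ℚ K : ℝ)) *
    ((∑ w : InfinitePlace K, (w.mult : ℝ) * Real.log (max 1 (w x))) +
      ∑ᶠ v : HeightOneSpectrum (𝓞 K), Real.log (max 1 (FinitePlace.mk v x)))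

/-- the function `t` -/
noncomputable def coord (A : Type) [CommRing A] [Algebra ℚ[X] A] : A := algebraMap ℚ[X] A X

open Classical in
/-- The truncated counting function `N_S^{(1)}(D, P) / [L : ℚ]` of the divisor `D` whose part `D_j`
over `a_j` has the equations `y_{j 1} = ⋯ = y_{j u_j} = 0`: the sum of `log N(v) / [L : ℚ]` over
the primes `v` of `L`, not above primes of `S`, at which `P = φ` reduces to a point of `D`, that
is, `|t(P)|_v ≤ 1` and for some `j` one has `|t(P) - a_j|_v < 1` and `|y_{j i}(P)|_v < 1` for all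
`i`. -/
noncomputable def truncated {A : Type} [CommRing A] [Algebra ℚ[X] A] {q : ℕ} (S : Finset ℕ)
    (a : Fin q → ℚ) (u : Fin q → ℕ) (y : ∀ j, Fin (u j) → A)
    (L : Type) [Field L] [NumberField L] (φ : A →+* L) : ℝ :=
  (∑ᶠ v : HeightOneSpectrum (𝓞 L),
      if (∀ p ∈ S, (p : 𝓞 L) ∉ v.asIdeal) ∧ v.valuation L (φ (coord A)) ≤ 1 ∧
        ∃ j, v.valuation L (φ (coord A) - (a j : L)) < 1 ∧ ∀ i, v.valuation L (φ (y j i)) < 1
      then Real.log (Ideal.absNorm v.asIdeal) else 0) / Module.finrank ℚ L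

/-- The logarithmic discriminant `d(L) = log |disc L| / [L : ℚ]`. -/
noncomputable def logDisc (L : Type) [Field L] [NumberField L] : ℝ :=
  Real.log |(NumberField.discr L : ℝ)| / Module.finrank ℚ L

/-- `q - (∑_j dim (A / E_j)) / N`, where `N` is the rank of `A` over `ℚ[t]`: the number
`2 + deg (K_X + D) / N`. -/
noncomputable def degree {A : Type} [CommRing A] [Algebra ℚ A] [Algebra ℚ[X] A] {q : ℕ}
    (E : Fin q → Ideal A) : ℝ :=
  q - (∑ j, (Module.finrank ℚ (A ⧸ E j) : ℝ)) / Module.finrank ℚ[X] A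

/-- the root discriminant `δ_K` -/
noncomputable def rootDisc (K : Type) [Field K] [NumberField K] : ℝ :=
  |(NumberField.discr K : ℝ)| ^ (1 / (Module.finrank ℚ K : ℝ))

/-- the elements of `K` of absolute height at most `B` -/
def Elts (K : Type) [Field K] [NumberField K] (B : ℝ) : Set K := {x | height x ≤ Real.log B}

/-- The elements `x` of `K` of absolute height at most `B`, different from the `a_j`, over which
there is a point `P = φ` of the curve, defined over a number field `L` which contains `K`, such that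
`(degree - θ) h(x) ≤ N_S^{(1)}(D, P) / [L : ℚ] + d(L) + ε h(x) + ∑_{p ∈ S} log p + c` fails for some
finite set `S` of primes. -/
def Exceptions (K : Type) [Field K] [NumberField K] {A : Type} [CommRing A] [Algebra ℚ A]
    [Algebra ℚ[X] A] {q : ℕ} (a : Fin q → ℚ) (u : Fin q → ℕ)
    (y : ∀ j, Fin (u j) → A) (E : Fin q → Ideal A) (θ ε c B : ℝ) : Set K :=
  {x | x ∈ Elts K B ∧ (∀ j, x ≠ (a j : K)) ∧
    ∃ (L : Type) (_ : Field L) (_ : NumberField L) (_ : Algebra K L)
    (φ : A →+* L) (S : Finset ℕ), φ (coord A) = algebraMap K L x ∧ (∀ p ∈ S, p.Prime) ∧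
      truncated S a u y L φ + logDisc L + ε * height x + ∑ p ∈ S, Real.log p + c <
        (degree E - θ) * height x}

theorem height_eq {K : Type} [Field K] [NumberField K] (x : K) :
    Real.log (Height.mulHeight₁ x) = Module.finrank ℚ K * height x :=
  Pool.Agent.W223.AC.MK.height_eq x

open Pool.Agent.W223.AC in
theorem partNB : StmtNB :=
  nb (Pool.Agent.W976.AC.EX.t Pool.Agent.W398.AC.DIM.t Pool.Agent.W193.AC.FINQ.t
      Pool.Agent.W989.AC.MULT.t)
    (Pool.Agent.W395.AC.LOCM.t Pool.Agent.W989.AC.MULT.t Pool.Agent.W597.AC.t)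
    (Pool.Agent.W410.AC.t Pool.Agent.W131.AC.t) Pool.Agent.W803.AC.t Pool.Agent.W460.AC.t

/-- the exceptions are roots of a polynomial or exceptional values -/
theorem exceptions_sub {A : Type} [CommRing A] [IsDedekindDomain A] [Algebra ℚ A] [Algebra ℚ[X] A]
    [IsScalarTower ℚ ℚ[X] A] [Module.Finite ℚ[X] A] [FaithfulSMul ℚ[X] A]
    {q : ℕ} (hq : 3 ≤ q) (a : Fin q → ℚ)
    (u : Fin q → ℕ) (y : ∀ j, Fin (u j) → A) (E : Fin q → Ideal A) (hE : ∀ j, E j ≠ ⊥)
    (hyE : ∀ j i, ∀ e ∈ E j,
      y j i * e ∈ (Ideal.span {coord A - algebraMap ℚ[X] A (C (a j))}).radical)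
    {θ κ : ℝ} (hκ : 0 < κ) (c : ℝ) :
    ∃ (M : ℕ) (G : ℚ[X]) (C₁ : ℝ), G ≠ 0 ∧
      ∀ (K : Type) [Field K] [NumberField K] (B : ℝ) (x : K), x ∈ Exceptions K a u y E θ κ c B →
        aeval x G = 0 ∨ Pool.Agent.W223.VD.cnt M.primeFactors
          (fun j => Pool.Agent.W223.AC.pt (a j)) x ≤
            (q - θ - κ / 2) * (Module.finrank ℚ K * height x) + Module.finrank ℚ K * C₁ := by
  classical
  obtain ⟨M, Ck, G, hM, hCk, hG, hkey⟩ := Pool.Agent.W223.AC.key partNB
    Pool.Agent.W460.AC.t Pool.Agent.W989.AC.MULT.t Pool.Agent.W597.AC.t A (by omega : 1 ≤ q)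
    a u y E hE hyE (κ / 2) (half_pos hκ)
  refine ⟨M, G, Ck - c, hG, fun K _ _ B => ?_⟩
  obtain ⟨C₀, hC₀⟩ : ∃ C₀ : ℝ, C₀ = c + Real.log |(discr K : ℝ)| / Module.finrank ℚ K := ⟨_, rfl⟩
  rintro x ⟨-, hx, L, _, _, _, φ, S, hφ, hS, hv⟩
  by_cases hGx : aeval x G = 0
  · exact Or.inl hGx
  right
  obtain ⟨S', hS'⟩ : ∃ S', S' = M.primeFactors := ⟨_, rfl⟩
  rw [← hS']
  obtain ⟨P, hP⟩ : ∃ P : Fin q → ℤ × ℤ, P = fun j => Pool.Agent.W223.AC.pt (a j) := ⟨_, rfl⟩
  rw [← hP]
  have hne : ∀ k, φ (coord A) ≠ (a k : L) := by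
    intro k h
    rw [hφ] at h
    apply hx k
    apply FaithfulSMul.algebraMap_injective K L
    rw [h, map_ratCast]
  have hGL : aeval (φ (coord A)) G ≠ 0 := by
    rw [hφ, aeval_algebraMap_apply]
    intro h
    rw [map_eq_zero] at h
    exact hGx h
  obtain ⟨Q, hQ⟩ : ∃ Q : HeightOneSpectrum (𝓞 L) → Prop, Q = fun v =>
      v.valuation L (φ (coord A)) ≤ 1 ∧ ∃ j, v.valuation L (φ (coord A) - (a j : L)) < 1 ∧
        ∀ i, v.valuation L (φ (y j i)) < 1 := ⟨_, rfl⟩
  have hQfin : {v | Q v}.Finite := by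
    refine (Set.finite_iUnion fun j : Fin q => Pool.Agent.W223.AC.val_finite
      (φ (coord A) - (a j : L)) (sub_ne_zero.mpr (hne j))).subset ?_
    intro v hv
    rw [hQ] at hv
    obtain ⟨-, j, hj, -⟩ := hv
    exact Set.mem_iUnion.mpr ⟨j, hj⟩
  have hk0 : Pool.Agent.W223.VD.cnt (∅ ∪ S') P (φ (coord A)) ≤ Pool.Agent.W223.CV.cc ∅ Q +
      ((∑ j, (Module.finrank ℚ (A ⧸ E j) : ℝ)) / Module.finrank ℚ[X] A + κ / 2) *
        Real.log (Height.mulHeight₁ (φ (coord A))) + Module.finrank ℚ L * Ck := by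
    rw [hS', hP, hQ]
    exact hkey ∅ L φ hGL hne
  have hk1 := Pool.Agent.W223.AC.cc_outside Pool.Agent.W803.AC.t S hS Q hQfin
  have hlin : ∀ j, Pool.Agent.W223.CV.lin (P j) x ≠ 0 := by
    intro j h
    rw [hP] at h
    unfold Pool.Agent.W223.CV.lin Pool.Agent.W223.AC.pt at h
    have h11 : ((a j : ℚ) : K) = (((a j).num : ℤ) : K) / (((a j).den : ℤ) : K) := by
      have := Rat.cast_def (K := K) (a j)
      push_cast
      exact this
    have h12 : (((a j).den : ℤ) : K) ≠ 0 := by exact_mod_cast (a j).den_nz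
    apply hx j
    rw [h11, eq_div_iff h12]
    exact (sub_eq_zero.mp h).symm
  -- base change to `L`
  have hrel := Pool.Agent.W469.CV.REL.t K L q S' P x hlin
  rw [← hφ] at hrel
  obtain ⟨d, hd⟩ : ∃ d : ℝ, d = (Module.finrank ℚ K : ℝ) := ⟨_, rfl⟩
  obtain ⟨m, hm⟩ : ∃ m : ℝ, m = (Module.finrank K L : ℝ) := ⟨_, rfl⟩
  have hd0 : 0 < d := by rw [hd]; exact_mod_cast Module.finrank_pos
  have hm0 : 0 < m := by rw [hm]; exact_mod_cast Module.finrank_pos
  have htow : (Module.finrank ℚ L : ℝ) = d * m := by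
    rw [hd, hm]
    exact_mod_cast (Module.finrank_mul_finrank ℚ K L).symm
  obtain ⟨H, hH⟩ : ∃ H : ℝ, H = Real.log (Height.mulHeight₁ x) := ⟨_, rfl⟩
  have hHx : height x = H / d := by
    rw [hH, height_eq, ← hd, mul_div_cancel_left₀ _ hd0.ne']
  have hHξ : Real.log (Height.mulHeight₁ (φ (coord A))) = m * H := by
    rw [hφ, Pool.Agent.W223.AC.MK.log_height_ext L x, ← hm, ← hH]
  obtain ⟨μ, hμ⟩ : ∃ μ : ℝ, μ = (∑ j, (Module.finrank ℚ (A ⧸ E j) : ℝ)) /
    Module.finrank ℚ[X] A := ⟨_, rfl⟩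
  have hdm : 0 < d * m := mul_pos hd0 hm0
  obtain ⟨R, hR⟩ : ∃ R : ℝ, R = ∑ p ∈ S, Real.log p := ⟨_, rfl⟩
  obtain ⟨W, hW⟩ : ∃ W : ℝ, W = Pool.Agent.W223.CV.cc S Q := ⟨_, rfl⟩
  have e6 : truncated S a u y L φ = W / (d * m) := by
    rw [← htow, hW]
    unfold truncated
    refine congrArg (fun t : ℝ => t / Module.finrank ℚ L) ?_
    unfold Pool.Agent.W223.CV.cc
    refine finsum_congr fun v => ?_
    by_cases h : (∀ p ∈ S, (p : 𝓞 L) ∉ v.asIdeal) ∧ Q v
    · rw [Pool.Agent.W223.CV.ct_pos h]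
      rw [hQ] at h
      exact if_pos h
    · rw [Pool.Agent.W223.CV.ct_neg h]
      rw [hQ] at h
      exact if_neg h
  have e7 : logDisc L = Real.log |(discr L : ℝ)| / (d * m) := by
    rw [← htow]
    rfl
  have e8 : degree E = q - μ := by rw [hμ]; rfl
  rw [e6, e7, e8, hHx, ← hR] at hv
  have hv : W / (d * m) + Real.log |(discr L : ℝ)| / (d * m) - Real.log |(discr K : ℝ)| / d + R +
      C₀ < (q - μ - θ - κ) * (H / d) := by
    rw [hC₀, ← hd]
    linarith
  rw [← hm] at hrel
  rw [← hR, ← hW, htow] at hk1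
  rw [Finset.empty_union, hHξ, htow, ← hμ] at hk0
  have h9 := mul_lt_mul_of_pos_left hv hdm
  have e9 : d * m * (W / (d * m) + Real.log |(discr L : ℝ)| / (d * m) -
      Real.log |(discr K : ℝ)| / d + R + C₀) =
      W + Real.log |(discr L : ℝ)| - m * Real.log |(discr K : ℝ)| + d * m * R + d * m * C₀ := by
    field_simp
  have e10 : d * m * ((q - μ - θ - κ) * (H / d)) = (q - μ - θ - κ) * (m * H) := by
    field_simp
  rw [e9, e10] at h9
  have h10 : m * (Pool.Agent.W223.VD.cnt S' P x + d * (C₀ - Ck)) <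
      m * ((q - θ - κ / 2) * H) := by
    have h11 : m * (Pool.Agent.W223.VD.cnt S' P x + d * (C₀ - Ck)) =
        m * (Real.log |(discr K : ℝ)| + Pool.Agent.W223.VD.cnt S' P x) -
          m * Real.log |(discr K : ℝ)| + d * m * C₀ - d * m * Ck := by ring
    have h12 : m * ((q - θ - κ / 2) * H) =
      (q - μ - θ - κ) * (m * H) + (μ + κ / 2) * (m * H) := by ring
    rw [h11, h12]
    linarith
  have h13 := lt_of_mul_lt_mul_left h10 hm0.le
  have h14 : 0 ≤ Real.log |(discr K : ℝ)| := by
    apply Real.log_nonneg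
    exact Pool.Agent.Y733.UD.one_le_disc K
  have h15 : d * C₀ = d * c + Real.log |(discr K : ℝ)| := by
    rw [hC₀, ← hd]
    field_simp
  rw [← hd, hHx, mul_div_cancel₀ _ hd0.ne']
  nlinarith

open Pool.Agent.Y733.UD Pool.Agent.Y733.LS Pool.Agent.Y733.VH Pool.Agent.W223.AK
open Pool.Agent.H691R3

section Aux

variable {K : Type} [Field K] [NumberField K]

theorem n_pos : (0 : ℝ) < Module.finrank ℚ K := by
  linarith [finrank_one_le K]

theorem rootDisc_eq : rootDisc K = Real.exp (rd K) := by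
  unfold rootDisc rd
  have h : (0 : ℝ) < |(NumberField.discr K : ℝ)| := by linarith [one_le_disc K]
  rw [Real.rpow_def_of_pos h]
  congr 1
  ring

theorem ht_log (x : K) : Module.finrank ℚ K * height x = ht x := by
  rw [← height_eq, ht_eq_Sa, ← logHeight_eq, Height.logHeight₁_eq_log_mulHeight₁]

theorem ncard_le {α : Type} {S : Set α} {b : ℝ}
    (h : ∀ E : Finset α, (E : Set α) ⊆ S → (E.card : ℝ) ≤ b) : S.Finite ∧ (S.ncard : ℝ) ≤ b := by
  have hfin : S.Finite := by
    by_contra hinf
    obtain ⟨t, ht, hcard⟩ := Set.Infinite.exists_subset_card_eq hinf (⌊b⌋₊ + 1)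
    have h1 := h t ht
    rw [hcard] at h1
    have h2 := Nat.lt_floor_add_one b
    push_cast at h1
    linarith
  refine ⟨hfin, ?_⟩
  have h1 := h hfin.toFinset (by simp)
  rwa [← Set.ncard_eq_toFinset_card S hfin] at h1

theorem le_ncard {S : Set K} (hS : S.Finite) {b : ℝ} {E : Finset K} (hE : (E : Set K) ⊆ S)
    (h : b ≤ E.card) : b ≤ (S.ncard : ℝ) := by
  refine h.trans ?_
  rw [← Set.ncard_coe_finset]
  exact_mod_cast Set.ncard_le_ncard hE hS

theorem pow_form {n : ℕ} {C B Q α β : ℝ} (hC : 0 < C) (hB : 0 < B) (hQ : 0 < Q) :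
    (C * B ^ α * Q ^ β) ^ n = Real.exp (n * (Real.log C + α * Real.log B + β * Real.log Q)) := by
  rw [Real.exp_nat_mul, Real.exp_add, Real.exp_add, Real.exp_log hC, Real.rpow_def_of_pos hB,
    Real.rpow_def_of_pos hQ, mul_comm α, mul_comm β]

theorem fin_Elts (B : ℝ) : (Elts K B).Finite := by
  refine (NumberField.finite_setOfPred_logHeight₁_le (K := K)
    (Module.finrank ℚ K * Real.log B)).subset ?_
  intro x hx
  show Height.logHeight₁ x ≤ _
  rw [Height.logHeight₁_eq_log_mulHeight₁, height_eq]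
  exact mul_le_mul_of_nonneg_left hx n_pos.le

theorem sqrt_rootDisc : √(rootDisc K) = Real.exp (rd K / 2) := by
  rw [rootDisc_eq, Real.exp_half]

theorem fv_lt_iff (v : Pr K) (y z : K) :
    fv v y < fv v z ↔ v.valuation K y < v.valuation K z := by
  have hmono : StrictMono (WithZeroMulInt.toNNReal
      (HeightOneSpectrum.absNorm_ne_zero v)) :=
    WithZeroMulInt.toNNReal_strictMono (HeightOneSpectrum.one_lt_absNorm_nnreal v)
  have e : ∀ y : K, fv v y = WithZeroMulInt.toNNReal (HeightOneSpectrum.absNorm_ne_zero v)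
      (v.valuation K y) := Pool.Agent.W125.CV.fv_eq v
  rw [e, e]
  rw [NNReal.coe_lt_coe]
  exact hmono.lt_iff_lt

/-- the two counting functions -/
theorem cn_eq_cnt {q : ℕ} (S : Finset ℕ) (a : Fin q → ℚ) (x : K) :
    cn (∏ p ∈ S, p) a x = Pool.Agent.W223.VD.cnt S (fun j => Pool.Agent.W223.AC.pt (a j)) x := by
  classical
  unfold cn Pool.Agent.W223.VD.cnt
  refine finsum_congr fun v => ?_
  refine if_congr ?_ rfl rfl
  have h1 : ∀ p : ℕ, fv v (p : K) = 1 ↔ (p : 𝓞 K) ∉ v.asIdeal := by
    intro p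
    have h2 := NumberField.FinitePlace.norm_eq_one_iff_notMem K v (p : 𝓞 K)
    rw [← h2]
    have e : (algebraMap (𝓞 K) K) ((p : ℕ) : 𝓞 K) = (p : K) := map_natCast _ _
    rw [e]
    rfl
  unfold nearSet
  rw [Set.mem_ofPred_eq]
  refine and_congr ?_ ?_
  · constructor
    · intro h p hp
      exact (h1 p).1 (fv_dvd v (Finset.dvd_prod_of_mem _ hp) h)
    · intro h
      rw [Nat.cast_prod, map_prod]
      exact Finset.prod_eq_one fun p hp => (h1 p).2 (h p hp)
  · refine exists_congr fun j => ?_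
    unfold nr lf
    have e2 : max (fv v x) 1 = fv v x ⊔ fv v (1 : K) := by rw [map_one]
    rw [e2, lt_sup_iff, fv_lt_iff, fv_lt_iff, map_one, ← lt_sup_iff]
    rfl

end Aux

/-- logarithmic form of the count -/
theorem exc_log {A : Type} [CommRing A] [IsDedekindDomain A] [Algebra ℚ A] [Algebra ℚ[X] A]
    [IsScalarTower ℚ ℚ[X] A] [Module.Finite ℚ[X] A] [FaithfulSMul ℚ[X] A]
    {q : ℕ} (hq : 3 ≤ q) (a : Fin q → ℚ) (ha : Function.Injective a)
    (u : Fin q → ℕ) (y : ∀ j, Fin (u j) → A) (J : Fin q → Ideal A) (hJ : ∀ j, J j ≠ ⊥)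
    (hyJ : ∀ j i, ∀ e ∈ J j,
      y j i * e ∈ (Ideal.span {coord A - algebraMap ℚ[X] A (C (a j))}).radical)
    {θ ε : ℝ} (hθ0 : 0 ≤ θ) (hθ : θ ≤ 2) (hε : 0 < ε) (hε1 : ε ≤ 1) (c : ℝ) :
    ∃ A' : ℝ, 0 ≤ A' ∧ ∀ (K : Type) [Field K] [NumberField K] (B : ℝ), 1 ≤ B →
      ((Exceptions K a u y J θ ε c B).ncard : ℝ) ≤ Real.exp (Module.finrank ℚ K *
        (A' + (2 - 2 * θ / q - ε / (2 * q)) * Real.log B)) := by
  classical
  have hq0 : (3 : ℝ) ≤ q := by exact_mod_cast hq
  have hqp : (0 : ℝ) < q := by linarith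
  obtain ⟨M, G, C₁, hG, hsub⟩ := exceptions_sub hq a u y J hJ hyJ (θ := θ) hε c
  obtain ⟨A', hA', h⟩ := count_cn (q := q) (by omega) a ha (∏ p ∈ M.primeFactors, p)
    (Finset.prod_ne_zero_iff.2 fun p hp => (Nat.prime_of_mem_primeFactors hp).ne_zero)
    (ε := ε / (2 * q)) (by positivity)
  have hlg : 0 ≤ Real.log (G.natDegree + 1) := by
    apply Real.log_nonneg
    have : (0 : ℝ) ≤ G.natDegree := Nat.cast_nonneg _
    linarith
  refine ⟨A' + |C₁| + Real.log (G.natDegree + 1), by positivity, ?_⟩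
  intro K _ _ B hB
  obtain ⟨n, hn⟩ : ∃ n, n = Module.finrank ℚ K := ⟨_, rfl⟩
  rw [← hn]
  have hn1 : (1 : ℝ) ≤ n := by rw [hn]; exact finrank_one_le K
  have hlB := Real.log_nonneg hB
  set Z := (Polynomial.rootSet_finite G K).toFinset with hZ
  have hZc : (Z.card : ℝ) ≤ G.natDegree := by
    have h1 := Polynomial.ncard_rootSet_le G K
    rw [hZ, ← Set.ncard_eq_toFinset_card _ (Polynomial.rootSet_finite G K)]
    exact_mod_cast h1
  refine (ncard_le fun E hE => ?_).2
  set E' := E \ Z with hE'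
  have h1 : (E'.card : ℝ) ≤ Real.exp (n * A' + 2 / q * ((q - θ - ε / 2) * (n * Real.log B) +
      n * |C₁|) + ε / (2 * q) * (n * Real.log B)) := by
    rw [hn]
    refine h K _ _ E' ?_
    intro x hx
    obtain ⟨hxE, hxZ⟩ := Finset.mem_sdiff.1 hx
    have hxm := hE (Finset.mem_coe.2 hxE)
    have hxh : height x ≤ Real.log B := hxm.1
    refine ⟨hxm.2.1, ?_, ?_⟩
    · rw [← ht_log]
      exact mul_le_mul_of_nonneg_left hxh n_pos.le
    · rcases hsub K B x hxm with h2 | h2
      · exfalso
        apply hxZ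
        rw [hZ, Set.Finite.mem_toFinset]
        exact (Polynomial.mem_rootSet_of_ne hG).2 h2
      · rw [cn_eq_cnt]
        refine h2.trans ?_
        rw [← hn]
        have h3 : 0 ≤ (q : ℝ) - θ - ε / 2 := by linarith
        have h4 : (n : ℝ) * height x ≤ n * Real.log B :=
          mul_le_mul_of_nonneg_left hxh (by linarith)
        have h5 := mul_le_mul_of_nonneg_left h4 h3
        have h6 : (n : ℝ) * C₁ ≤ n * |C₁| := mul_le_mul_of_nonneg_left (le_abs_self _) (by linarith)
        linarith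
  have h2 : (E.card : ℝ) ≤ E'.card + G.natDegree := by
    have h3 : E.card ≤ E'.card + Z.card := by
      rw [hE']
      have := Finset.card_le_card_sdiff_add_card (s := E) (t := Z)
      omega
    have h4 : (E.card : ℝ) ≤ E'.card + Z.card := by exact_mod_cast h3
    linarith
  have e1 : n * A' + 2 / q * ((q - θ - ε / 2) * (n * Real.log B) + n * |C₁|) +
      ε / (2 * q) * (n * Real.log B) = n * (A' + 2 / q * |C₁| +
        (2 - 2 * θ / q - ε / (2 * q)) * Real.log B) := by
    field_simp
    ring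
  rw [e1] at h1
  have hexp : 0 ≤ 2 - 2 * θ / q - ε / (2 * q) := by
    have h3 : 2 * θ / q ≤ 4 / 3 := by
      rw [div_le_div_iff₀ hqp (by norm_num)]
      linarith
    have h4 : ε / (2 * q) ≤ 1 / 6 := by
      rw [div_le_div_iff₀ (by positivity) (by norm_num)]
      linarith
    linarith
  have h3 : n * (A' + 2 / q * |C₁| + (2 - 2 * θ / q - ε / (2 * q)) * Real.log B) ≤
      n * (A' + |C₁| + (2 - 2 * θ / q - ε / (2 * q)) * Real.log B) := by
    apply mul_le_mul_of_nonneg_left _ (by linarith)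
    have h4 : 2 / (q : ℝ) ≤ 1 := by
      rw [div_le_one hqp]
      linarith
    have := mul_le_mul_of_nonneg_right h4 (abs_nonneg C₁)
    linarith
  have h4 := h1.trans (Real.exp_le_exp.2 h3)
  have h5 : 0 ≤ n * (A' + |C₁| + (2 - 2 * θ / q - ε / (2 * q)) * Real.log B) := by
    have := abs_nonneg C₁
    have := mul_nonneg hexp hlB
    positivity
  have h6 := Real.one_le_exp h5
  have h7 : (G.natDegree : ℝ) + 1 ≤ Real.exp (n * Real.log (G.natDegree + 1)) := by
    have h8 : Real.exp (Real.log ((G.natDegree : ℝ) + 1)) = G.natDegree + 1 :=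
      Real.exp_log (by positivity)
    calc (G.natDegree : ℝ) + 1 = Real.exp (Real.log ((G.natDegree : ℝ) + 1)) := h8.symm
      _ ≤ _ := Real.exp_le_exp.2 (by nlinarith)
  have h8 : (0 : ℝ) ≤ G.natDegree := Nat.cast_nonneg _
  calc (E.card : ℝ) ≤ ((G.natDegree : ℝ) + 1) *
        Real.exp (n * (A' + |C₁| + (2 - 2 * θ / q - ε / (2 * q)) * Real.log B)) := by
        nlinarith
    _ ≤ Real.exp (n * Real.log (G.natDegree + 1)) *
        Real.exp (n * (A' + |C₁| + (2 - 2 * θ / q - ε / (2 * q)) * Real.log B)) :=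
        mul_le_mul_of_nonneg_right h7 (Real.exp_pos _).le
    _ = _ := by
        rw [← Real.exp_add]
        congr 1
        ring

/-- logarithmic form of the lower bound for the number of all elements -/
theorem elts_log {ε : ℝ} (hε : 0 < ε) : ∃ A : ℝ, 0 ≤ A ∧
    ∀ (K : Type) [Field K] [NumberField K] (B : ℝ), 16 * √(rootDisc K) ≤ B →
      Real.exp (Module.finrank ℚ K * ((2 - ε) * Real.log B - (2 + ε) * rd K - A)) ≤
        ((Elts K B).ncard : ℝ) := by
  classical
  set ε1 : ℝ := min (ε / 4) 1 with hε1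
  have h1 : 0 < ε1 := lt_min (by positivity) one_pos
  have h2 : ε1 ≤ 1 := min_le_right _ _
  have h3 : 4 * ε1 ≤ ε := by
    have := min_le_left (ε / 4) 1
    rw [← hε1] at this
    linarith
  obtain ⟨A, hA, h⟩ := low_count h1 h2
  refine ⟨A, hA, ?_⟩
  intro K _ _ B hBK
  have hn := n_pos (K := K)
  have hrd := rd_nonneg K
  have hl16 : 0 ≤ Real.log 16 := Real.log_nonneg (by norm_num)
  have hl : Real.log 16 + rd K / 2 ≤ Real.log B := by
    rw [sqrt_rootDisc] at hBK
    have h1 := Real.log_le_log (by positivity) hBK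
    rwa [Real.log_mul (by norm_num) (Real.exp_pos _).ne', Real.log_exp] at h1
  have hl8 : Real.log 8 ≤ Real.log 16 := Real.log_le_log (by norm_num) (by norm_num)
  obtain ⟨E, hE, hcard⟩ := h K (Real.log B) (by linarith)
  have hsub : (E : Set K) ⊆ Elts K B := by
    intro j hj
    obtain ⟨h4, h5⟩ := hE j (Finset.mem_coe.1 hj)
    show height j ≤ Real.log B
    rw [← ht_log] at h5
    exact le_of_mul_le_mul_left h5 hn
  have hc := le_ncard (fin_Elts B) hsub hcard
  refine le_trans ?_ hc
  apply Real.exp_le_exp.2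
  have h7 : (2 - ε) * Real.log B ≤ (2 - 4 * ε1) * Real.log B :=
    mul_le_mul_of_nonneg_right (by linarith) (by linarith)
  have h8 : (2 + ε1) * rd K ≤ (2 + ε) * rd K := mul_le_mul_of_nonneg_right (by linarith) hrd
  apply mul_le_mul_of_nonneg_left _ hn.le
  linarith

theorem exc_le {A : Type} [CommRing A] [Algebra ℚ A] [Algebra ℚ[X] A] (K : Type) [Field K]
    [NumberField K] {q : ℕ} (a : Fin q → ℚ) (u : Fin q → ℕ) (y : ∀ j, Fin (u j) → A)
    (J : Fin q → Ideal A) (θ ε c B : ℝ) :
    ((Exceptions K a u y J θ ε c B).ncard : ℝ) ≤ ((Elts K B).ncard : ℝ) := by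
  have h : Exceptions K a u y J θ ε c B ⊆ Elts K B := fun x hx => hx.1
  exact_mod_cast Set.ncard_le_ncard h (fin_Elts B)

/-- **The truncated Vojta inequality with discriminant term on all curves, over all number fields of
all degrees.** Let `A` be a Dedekind domain, finite over `ℚ[t]` and containing it (the ring of
functions of a smooth affine curve which is finite over the `t`-line), of rank `N`, let
`a_1, …, a_q` be `q ≥ 3` distinct rational numbers, let `D_j` be the closed subset
`y_{j 1} = ⋯ = y_{j u_j} = 0` and `E_j ≠ 0` an ideal of `A` such that `D_j` and the zeros of `E_j`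
together contain the fibre over `a_j`. Let `0 ≤ θ ≤ 2`, `0 < ε ≤ 1` and `c` real.

(1) There is `C > 0` such that over every number field `K`, of whatever degree `n`, and for every
`B ≥ 1` the following holds for all `x ∈ K` of absolute height at most `B`, with the exception of the
`a_j` and of at most `(C B ^ (2 - 2 θ / q - ε / (2 q))) ^ n` others: all points `P` of the curve with
`t(P) = x`, all number fields `L ⊇ K` over which `P` is defined and all finite sets `S` of primes
satisfy `(q - θ - (∑_j dim (A / E_j)) / N) h(x) ≤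
N_S^{(1)}(D, P) / [L : ℚ] + d(L) + ε h(x) + ∑_{p ∈ S} log p + c`.

(2) The exceptions are at most the proportion
`(C B ^ (- 2 θ / q - ε / (4 q)) δ_K ^ (2 + ε)) ^ n` of the elements `x` of height at most `B`.

(3) There are at least `(B ^ (2 - η) / (C δ_K ^ (2 + η))) ^ n` such elements if `B ≥ 16 √δ_K`. -/
theorem result :
    (∀ (A : Type) [CommRing A] [IsDedekindDomain A] [Algebra ℚ A] [Algebra ℚ[X] A]
      [IsScalarTower ℚ ℚ[X] A] [Module.Finite ℚ[X] A] [FaithfulSMul ℚ[X] A]
      (q : ℕ), 3 ≤ q → ∀ (a : Fin q → ℚ), Function.Injective a →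
      ∀ (u : Fin q → ℕ) (y : ∀ j, Fin (u j) → A) (E : Fin q → Ideal A), (∀ j, E j ≠ ⊥) →
      (∀ j i, ∀ e ∈ E j,
        y j i * e ∈ (Ideal.span {coord A - algebraMap ℚ[X] A (C (a j))}).radical) →
      ∀ θ ε c : ℝ, 0 ≤ θ → θ ≤ 2 → 0 < ε → ε ≤ 1 →
      (∃ C : ℝ, 0 < C ∧ ∀ (K : Type) [Field K] [NumberField K] (B : ℝ), 1 ≤ B →
        (Elts K B).Finite ∧ ((Exceptions K a u y E θ ε c B).ncard : ℝ) ≤
          (C * B ^ (2 - 2 * θ / q - ε / (2 * q))) ^ Module.finrank ℚ K) ∧
      (∃ C : ℝ, 0 < C ∧ ∀ (K : Type) [Field K] [NumberField K] (B : ℝ), 1 ≤ B →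
        ((Exceptions K a u y E θ ε c B).ncard : ℝ) ≤
          (C * B ^ (-(2 * θ / q) - ε / (4 * q)) * rootDisc K ^ (2 + ε)) ^ Module.finrank ℚ K *
            ((Elts K B).ncard : ℝ))) ∧
    (∀ η : ℝ, 0 < η → ∃ C : ℝ, 0 < C ∧
      ∀ (K : Type) [Field K] [NumberField K] (B : ℝ), 16 * √(rootDisc K) ≤ B →
        (C⁻¹ * B ^ (2 - η) * rootDisc K ^ (-(2 + η))) ^ Module.finrank ℚ K ≤
          ((Elts K B).ncard : ℝ)) := by
  refine ⟨?_, ?_⟩
  · intro A _ _ _ _ _ _ _ q hq a ha u y J hJ hyJ θ ε c hθ0 hθ hε hε1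
    have hq0 : (3 : ℝ) ≤ q := by exact_mod_cast hq
    have hqp : (0 : ℝ) < q := by linarith
    obtain ⟨A1, hA1, h1⟩ := exc_log hq a ha u y J hJ hyJ hθ0 hθ hε hε1 c
    refine ⟨⟨Real.exp A1, Real.exp_pos _, ?_⟩, ?_⟩
    · intro K _ _ B hB
      have hB0 : 0 < B := by linarith
      refine ⟨fin_Elts B, (h1 K B hB).trans (le_of_eq ?_)⟩
      rw [Real.rpow_def_of_pos hB0, ← Real.exp_add, ← Real.exp_nat_mul]
      congr 2
      ring
    · obtain ⟨A2, hA2, h2⟩ := elts_log (ε := ε / (4 * q)) (by positivity)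
      have hl16 : 0 ≤ Real.log 16 := Real.log_nonneg (by norm_num)
      refine ⟨Real.exp (A1 + A2 + 2 * Real.log 16), Real.exp_pos _, ?_⟩
      intro K _ _ B hB
      have hB0 : 0 < B := by linarith
      have hlB : 0 ≤ Real.log B := Real.log_nonneg hB
      have hn := n_pos (K := K)
      have hrd := rd_nonneg K
      have hδ : 0 < rootDisc K := by rw [rootDisc_eq]; exact Real.exp_pos _
      have hε4 : ε / (4 * q) ≤ ε := by
        rw [div_le_iff₀ (by positivity)]
        nlinarith
      rw [pow_form (Real.exp_pos _) hB0 hδ, Real.log_exp, rootDisc_eq, Real.log_exp]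
      rcases le_or_gt (16 * √(rootDisc K)) B with hBK | hBK
      · refine (h1 K B hB).trans ?_
        refine le_trans ?_ (mul_le_mul_of_nonneg_left (h2 K B hBK) (Real.exp_pos _).le)
        rw [← Real.exp_add]
        apply Real.exp_le_exp.2
        rw [← mul_add]
        apply mul_le_mul_of_nonneg_left _ hn.le
        have e : 2 - 2 * θ / q - ε / (2 * q) =
            (-(2 * θ / q) - ε / (4 * q)) + (2 - ε / (4 * q)) := by
          field_simp
          ring
        rw [e, add_mul]
        have h8 : (2 + ε / (4 * q)) * rd K ≤ (2 + ε) * rd K :=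
          mul_le_mul_of_nonneg_right (by linarith) hrd
        linarith
      · have h7 : Real.log B < Real.log 16 + rd K / 2 := by
          rw [sqrt_rootDisc] at hBK
          have h1 := Real.log_lt_log hB0 hBK
          rwa [Real.log_mul (by norm_num) (Real.exp_pos _).ne', Real.log_exp] at h1
        refine le_trans (exc_le K a u y J θ ε c B) ?_
        refine le_mul_of_one_le_left (Nat.cast_nonneg _) (Real.one_le_exp ?_)
        apply mul_nonneg hn.le
        have h3 : 2 * θ / q ≤ 4 / 3 := by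
          rw [div_le_div_iff₀ hqp (by norm_num)]
          linarith
        have h4 : ε / (4 * q) ≤ 1 / 12 := by
          rw [div_le_div_iff₀ (by positivity) (by norm_num)]
          linarith
        have h8 : -(2 * Real.log B) ≤ (-(2 * θ / q) - ε / (4 * q)) * Real.log B := by
          nlinarith
        have h10 := mul_nonneg hε.le hrd
        linarith
  · intro η hη
    obtain ⟨A, hA, h⟩ := elts_log hη
    refine ⟨Real.exp A, Real.exp_pos _, ?_⟩
    intro K _ _ B hBK
    have hB : 0 < B := by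
      have h1 := hBK
      rw [sqrt_rootDisc] at h1
      have : 0 < 16 * Real.exp (rd K / 2) := by positivity
      linarith
    have hδ : 0 < rootDisc K := by rw [rootDisc_eq]; exact Real.exp_pos _
    rw [pow_form (by positivity) hB hδ, Real.log_inv, Real.log_exp, rootDisc_eq, Real.log_exp]
    refine le_trans (le_of_eq ?_) (h K B hBK)
    congr 1
    ring

end Pool.Agent.Results.MP_44a246_nt.AllFieldsAllDegrees
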