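import Mathlib
import Pool.Agent.R366.TC.Main

/-!
# The truncated inequality with discriminant term on every variety generically finite over `ℙⁿ`, for
# every divisor, at the points over almost all rational points

Let `X` be a smooth projective variety over `ℚ`, of any dimension `n`, `π : X → ℙⁿ` a generically
finite morphism of degree `N` and `D` a reduced effective divisor on `X`. Let `X → X' → ℙⁿ` be its
Stein factorization: `X'` is normal and finite over `ℙⁿ`, and `X → X'` contracts the exceptional
divisors. The homogeneous coordinate ring `A = ⊕ H⁰(X', O(m))` is a normal domain, finite and of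
rank `N` over `ℚ[x_0, …, x_n]`. Let `F_j = 0` (`F_j` irreducible of degree `k_j`) be the components
of the branch divisor of `X'` and of the image of the non-exceptional part of `D`. We divide the
reduced preimage of `F_j = 0` in `X'` into its part `D_j` in the image of `D`, given by equations
`y_{j 1} = ⋯ = y_{j u_j} = 0`, and the remaining part, with the ideal `E_j ⊂ A`; let `s_j` be the
degree of the latter over `F_j = 0`. As `K_{X'} = R - (n + 1) H` with the ramification divisor `R`,
the push-forward of `K_X + D` to `ℙⁿ` has degree `N (∑ k_j (1 - s_j / N) - (n + 1))`. If `K` is the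
residue field of a closed point `P` of `X` over a general `x ∈ ℙⁿ(ℚ)` with `[K : ℚ] = N` (by
Hilbert's irreducibility theorem this is so for almost all `x`), the conjugates of `P` are the points
of `X` over `x`, hence `h_{K_X + D}(P) = (∑ k_j (1 - s_j / N) - (n + 1)) h(x)` up to the heights of
exceptional divisors. The images of the latter in `ℙⁿ` have codimension at least two, and thus
their heights are at most `Λ ∑_l h_l(x) + O(1)`, where `h_l` is the height relative to an ideal
`(F'_l, G'_l)` generated by two forms without common factor; the same holds for the difference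
between the truncated counting functions of `D` on `X` and on `X'`.

We prove that, if the `F_j` are linear or quadratic forms (or have few coincidences), for almost all
`x`, with a power-saving set of exceptions,
`κ log B + m_S(G, x) + Λ ∑_l h_l(x) ≤ N_T^{(1)}(D, P) + d(K)` for each `κ < ∑ k_j (1 - s_j / N)`,
where `G` is an arbitrary form and `m_S` its proximity function. This is the inequality
`h_{K_X + D}(P) ≤ N_T^{(1)}(D, P) + d(P) + ε h(P) + O(1)` of the conjecture, at the points of degree
`N` over almost all rational points, even with `K_X + (n + 1) H` in place of `K_X`. Moreover, a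
component `F_j = 0` of any degree whose preimage is contained in `D` (so that `E_j = A`) is allowed,
and then contributes `m_j` instead of `k_j`, where `m_j = 1` always is possible. The other
components may be left out. Thus the inequality for `K_X + D` follows as long as the total loss is
less than `n + 1`: for example for all `X`, `π`, `D` such that the images in `ℙⁿ` of the
non-exceptional components of `D` and of the ramification divisor are hyperplanes, quadrics and
hypersurfaces of degrees `k_j` over which `X'` is unramified, which have all their preimage in `D`,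
with `∑ (k_j - 1) ≤ n`.
-/

set_option autoImplicit false

namespace Pool.Agent.Results.MP_44a246_nt.CoversOfProjectiveSpace

open MvPolynomial NumberField IsDedekindDomain

/-- The closed subset `E` of `Spec A` has degree at most `s` over the prime divisor `F = 0` of
`Spec R`: after inverting an element `g` of `R` not divisible by `F`, the `R`-module `A / E` is
generated by `s` elements. -/
def SheetsLE {R A : Type} [CommRing R] [CommRing A] [Algebra R A] (E : Ideal A) (F : R) (s : ℕ) :
    Prop :=
  ∃ g : R, ¬ F ∣ g ∧ ∃ a : Fin s → A, ∀ b : A, ∃ r : Fin s → R,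
    algebraMap R A g * b - ∑ l, algebraMap R A (r l) * a l ∈ E

/-- A form `F` in `n` variables has few coincidences with exponent `m` if, for each `δ > 0`, it
takes the same value at no more than `C B ^ (2 n - m + δ)` pairs of integer vectors with entries at
most `B` in absolute value. -/
def FewCoincidences {n : ℕ} (F : MvPolynomial (Fin n) ℤ) (m : ℕ) : Prop :=
  ∀ δ : ℝ, 0 < δ → ∃ C : ℝ, ∀ B : ℕ, 1 ≤ B →
    (Set.ncard {z : (Fin n → ℤ) × (Fin n → ℤ) | (∀ i, |z.1 i| ≤ B) ∧ (∀ i, |z.2 i| ≤ B) ∧
      eval z.1 F = eval z.2 F} : ℝ) ≤ C * (B : ℝ) ^ (2 * (n : ℝ) - m + δ)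

/-- The logarithmic discriminant of a number field (over `ℚ`). -/
noncomputable def logDisc (K : Type) [Field K] [NumberField K] : ℝ :=
  Real.log |(NumberField.discr K : ℝ)| / Module.finrank ℚ K

open Classical in
/-- The truncated counting function `N_T^{(1)}(D, P)` of the divisor `D` whose part over `F_j = 0`
has the equations `y_{j 1} = ⋯ = y_{j u_j} = 0`, at the point `P` given by `φ : A → K` over the
point of `ℙⁿ` with coordinates `x`: the sum of `log N(v) / [K : ℚ]` over the primes `v` of `K`,
not above primes of `T`, at which `P` reduces to a point of `D`, that is, for some `j` one has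
`|F_j(x)|_v < 1` and `|y_{j i}(P)|_v < 1` for all `i`. -/
noncomputable def truncated {n q : ℕ} {A : Type} [CommRing A] (T : Finset ℕ)
    (F : Fin q → MvPolynomial (Fin n) ℤ) (u : Fin q → ℕ) (y : ∀ j, Fin (u j) → A) (x : Fin n → ℤ)
    (K : Type) [Field K] [NumberField K] (φ : A →+* K) : ℝ :=
  (∑ᶠ v : HeightOneSpectrum (𝓞 K),
    if (∀ p ∈ T, (p : 𝓞 K) ∉ v.asIdeal) ∧ ∃ j, v.valuation K ((eval x (F j) : ℤ) : K) < 1 ∧
      ∀ i, v.valuation K (φ (y j i)) < 1
    then Real.log (Ideal.absNorm v.asIdeal) else 0) / Module.finrank ℚ K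

/-- The proximity function of the divisor `G = 0` of projective space, `G` a form of degree `d`,
with respect to the real place and the primes in `S`:
`d log max |x_i| - log |G(x)| + ∑_{p ∈ S} v_p(G(x)) log p`. -/
noncomputable def proximity {n : ℕ} (G : MvPolynomial (Fin n) ℤ) (d : ℕ) (S : Finset ℕ)
    (x : Fin n → ℤ) : ℝ :=
  d * Real.log (Finset.univ.sup fun i => (x i).natAbs : ℕ) - Real.log |(eval x G : ℝ)| +
    ∑ p ∈ S, padicValInt p (eval x G) * Real.log p

/-- The height of a point with integral homogeneous coordinates `x` (without common factor) relative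
to the ideal generated by the forms `F` and `G` of degrees `k` and `e`, that is the sum over all
places of the smaller one of the local heights relative to `F = 0` and to `G = 0`: the sum of
`log gcd (F(x), G(x))` and of `min (k log max |x_i| - log |F(x)|) (e log max |x_i| - log |G(x)|)`. -/
noncomputable def idealHeight {n : ℕ} (F G : MvPolynomial (Fin n) ℤ) (k e : ℕ) (x : Fin n → ℤ) :
    ℝ :=
  Real.log (Int.gcd (eval x F) (eval x G)) +
    min (k * Real.log (Finset.univ.sup fun i => (x i).natAbs : ℕ) - Real.log |(eval x F : ℝ)|)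
      (e * Real.log (Finset.univ.sup fun i => (x i).natAbs : ℕ) - Real.log |(eval x G : ℝ)|)

/-- **The truncated inequality at the points of degree `N` over almost all rational points, for
every cover of degree `N` and every reduced divisor.** -/
theorem result (n : ℕ) (A : Type) [CommRing A] [IsDomain A] [IsIntegrallyClosed A]
    [Algebra (MvPolynomial (Fin (n + 1)) ℚ) A] [FaithfulSMul (MvPolynomial (Fin (n + 1)) ℚ) A]
    [Module.Finite (MvPolynomial (Fin (n + 1)) ℚ) A]
    (N : ℕ) (hN : Module.finrank (MvPolynomial (Fin (n + 1)) ℚ) A = N)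
    -- components of the branch divisor and of the image of `D`
    (q : ℕ) (F : Fin q → MvPolynomial (Fin (n + 1)) ℤ) (k : Fin q → ℕ)
    (hhom : ∀ j, (F j).IsHomogeneous (k j))
    (hirr : ∀ j, Irreducible (map (Int.castRingHom ℚ) (F j)))
    (hdist : ∀ i j, i ≠ j →
      ¬ Associated (map (Int.castRingHom ℚ) (F i)) (map (Int.castRingHom ℚ) (F j)))
    -- the part `D_j : y_j = 0` of `D` and the remaining part `E_j` of the preimage of `F_j = 0`
    (u : Fin q → ℕ) (y : ∀ j, Fin (u j) → A) (E : Fin q → Ideal A) (s : Fin q → ℕ)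
    (hFE : ∀ j, algebraMap (MvPolynomial (Fin (n + 1)) ℚ) A (map (Int.castRingHom ℚ) (F j)) ∈ E j)
    (hyE : ∀ j i, ∀ e ∈ E j, y j i * e ∈ (Ideal.span
      {algebraMap (MvPolynomial (Fin (n + 1)) ℚ) A (map (Int.castRingHom ℚ) (F j))}).radical)
    (hsN : ∀ j, s j ≤ N) (hs : ∀ j, SheetsLE (E j) (map (Int.castRingHom ℚ) (F j)) (s j))
    -- the contributions `m_j` of the components
    (m : Fin q → ℕ)
    (hm : ∀ j, (m j = k j ∧ (k j ≤ 2 ∨ FewCoincidences (F j) (k j))) ∨
      (E j = ⊤ ∧ (m j ≤ 1 ∨ (m j ≤ k j ∧ k j ≤ 2) ∨ FewCoincidences (F j) (m j))))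
    -- an arbitrary divisor of `ℙⁿ` and finite sets of primes
    (G : MvPolynomial (Fin (n + 1)) ℤ) (d : ℕ) (hG : G.IsHomogeneous d) (hG0 : G ≠ 0)
    (S T : Finset ℕ) (hS : ∀ p ∈ S, p.Prime) (hT : ∀ p ∈ T, p.Prime)
    -- arbitrary closed subsets of codimension at least two, for the exceptional divisors
    (t : ℕ) (F' G' : Fin t → MvPolynomial (Fin (n + 1)) ℤ) (k' e' : Fin t → ℕ)
    (hhom' : ∀ l, (F' l).IsHomogeneous (k' l) ∧ (G' l).IsHomogeneous (e' l))
    (hirr' : ∀ l, Irreducible (map (Int.castRingHom ℚ) (F' l)))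
    (hcop' : ∀ l, ¬ map (Int.castRingHom ℚ) (F' l) ∣ map (Int.castRingHom ℚ) (G' l))
    (Λ : ℝ) (hΛ : 0 ≤ Λ)
    (κ : ℝ) (hκ : κ < ∑ j, (m j : ℝ) * (1 - (s j : ℝ) / N)) :
    ∃ c : ℝ, 0 < c ∧ ∃ C : ℝ, ∀ B : ℕ, 1 ≤ B →
      (Set.ncard {x : Fin (n + 1) → ℤ | (∀ i, |x i| ≤ B) ∧
        ∃ (K : Type) (_ : Field K) (_ : NumberField K) (φ : A →+* K),
          Function.Surjective φ ∧ Module.finrank ℚ K = N ∧
          (∀ i, φ (algebraMap (MvPolynomial (Fin (n + 1)) ℚ) A (X i)) = x i) ∧
          truncated T F u y x K φ + logDisc K < κ * Real.log B + proximity G d S x +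
            Λ * ∑ l, idealHeight (F' l) (G' l) (k' l) (e' l) x} : ℝ) ≤
        C * (B : ℝ) ^ ((n : ℝ) + 1 - c) := by
  obtain ⟨c, hc, C, -, h⟩ := Pool.Agent.R366.TC.main_marked (A := A) N hN F k s hhom hirr hdist
    u y E m hm hFE hyE hsN hs G d hG hG0 S T hS hT t F' G' k' e' (fun l => (hhom' l).1) hirr' hcop'
    Λ hΛ κ hκ
  refine ⟨c, hc, C, fun B hB => ?_⟩
  have h1 := h B hB
  push_cast at h1
  refine le_trans ?_ h1
  have h2 : {x : Fin (n + 1) → ℤ | (∀ i, |x i| ≤ B) ∧
        ∃ (K : Type) (_ : Field K) (_ : NumberField K) (φ : A →+* K),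
          Function.Surjective φ ∧ Module.finrank ℚ K = N ∧
          (∀ i, φ (algebraMap (MvPolynomial (Fin (n + 1)) ℚ) A (X i)) = x i) ∧
          truncated T F u y x K φ + logDisc K < κ * Real.log B + proximity G d S x +
            Λ * ∑ l, idealHeight (F' l) (G' l) (k' l) (e' l) x} ⊆
      {x | x ∈ Pool.Agent.TH910.Voj.box (n + 1) B ∧
        ∃ (K : Type) (_ : Field K) (_ : NumberField K)
        (φ : A →+* K), Function.Surjective φ ∧ Module.finrank ℚ K = N ∧
        (∀ i, φ (algebraMap (MvPolynomial (Fin (n + 1)) ℚ) A (X i)) = x i) ∧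
        Pool.Agent.R366.TC.trunc T F u y x K φ + Real.log |(NumberField.discr K : ℝ)| / N <
          κ * Real.log B + Pool.Agent.TH910.Voj.proximity G d S x +
            Λ * ∑ l, Pool.Agent.R366.TC.idealHeight (F' l) (G' l) (k' l) (e' l) x} := by
    rintro x ⟨hx, K, iF, iN, φ, hφ, hK, hφx, hlt⟩
    refine ⟨Pool.Agent.TH910.Voj.mem_box.mpr hx, K, iF, iN, φ, hφ, hK, hφx, ?_⟩
    unfold logDisc at hlt
    rw [hK] at hlt
    exact hlt
  exact_mod_cast Set.ncard_le_ncard h2 (Pool.Agent.TH910.Voj.finite_sub _ _ _)

end Pool.Agent.Results.MP_44a246_nt.CoversOfProjectiveSpace
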