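import Pool.Agent.R479.DK.Trunc

/-!
# The exact dimension of the numbers with many approximations violating the truncated inequality

Let `K` be a number field with an embedding `σ` into the real numbers, `T` a finite set of primes of
`K`, `α_1, …, α_q` distinct points of the projective line over `K`, `D = ∑ [α_l]`. For `x` in `K` let
`h(x)` be the height relative to `K` and `N(x)` the truncated counting function of `D` outside `T`,
every prime at which some local height is positive counted once. We determine the Hausdorff dimension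
of the set of the real numbers `ξ` with infinitely many approximations `x` in `K` of exponent `τ`,
`|ξ - σ(x)| ≤ exp (-τ h(x))`, for which `N(x) < (q - κ) h(x) + c`.
-/

set_option autoImplicit false

namespace Pool.Agent.Results.MP_44a246_nt.ExactDimensionRealPlace

open NumberField IsDedekindDomain

/-- the logarithmic height relative to `K` of the point `[x : 1]` -/
noncomputable def height {K : Type} [Field K] [NumberField K] (x : K) : ℝ :=
  ∑ w : InfinitePlace K, (w.mult : ℝ) * Real.log (max (w x) (w 1)) +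
    ∑ᶠ v : HeightOneSpectrum (RingOfIntegers K),
      Real.log (max (FinitePlace.mk v x) (FinitePlace.mk v 1))

/-- the local height at the prime `v` of the point `[x : 1]` relative to the point `[a.1 : a.2]` -/
noncomputable def lam {K : Type} [Field K] [NumberField K]
    (v : HeightOneSpectrum (RingOfIntegers K)) (a : K × K) (x : K) : ℝ :=
  Real.log (max (FinitePlace.mk v x) (FinitePlace.mk v 1) *
    max (FinitePlace.mk v a.1) (FinitePlace.mk v a.2) /
      FinitePlace.mk v (x * a.2 - 1 * a.1))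

/-- the truncated counting function relative to `K` of the point `[x : 1]` with respect to the divisor
`∑ [α_l]`: the sum of the `log N(v)` over the primes `v` outside `T` at which some local height is
positive, each prime counted once -/
noncomputable def truncated {K : Type} [Field K] [NumberField K]
    (T : Set (HeightOneSpectrum (RingOfIntegers K))) {q : ℕ} (α : Fin q → K × K) (x : K) : ℝ :=
  ∑ᶠ (v : HeightOneSpectrum (RingOfIntegers K)) (_ : v ∉ T ∧ ∃ l, 0 < lam v (α l) x),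
    Real.log (Ideal.absNorm v.asIdeal : ℝ)

/-- the real numbers `ξ` such that infinitely many `x` in `K`, different from the `α_l`, satisfy
`|ξ - σ(x)| ≤ exp (-τ h(x))` and `N(x) < (q - κ) h(x) + c` -/
def Exceptional {K : Type} [Field K] [NumberField K] (σ : K →+* ℝ)
    (T : Set (HeightOneSpectrum (RingOfIntegers K))) {q : ℕ} (α : Fin q → K × K)
    (κ c τ : ℝ) : Set ℝ :=
  {ξ : ℝ | {x : K | (∀ l, x * (α l).2 - 1 * (α l).1 ≠ 0) ∧
    |ξ - σ x| ≤ Real.exp (-τ * height x) ∧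
    truncated T α x < ((q : ℝ) - κ) * height x + c}.Infinite}

/-- the real numbers that are in `Exceptional σ T α κ c τ` for some finite set `T` of primes, some
`q ≥ 2`, some distinct points `α_1, …, α_q` of the projective line over `K` and some real `c` -/
def AllExceptional {K : Type} [Field K] [NumberField K] (σ : K →+* ℝ) (κ τ : ℝ) : Set ℝ :=
  {ξ : ℝ | ∃ (T : Set (HeightOneSpectrum (RingOfIntegers K))) (q : ℕ) (α : Fin q → K × K) (c : ℝ),
    T.Finite ∧ 2 ≤ q ∧ (∀ i, α i ≠ 0) ∧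
    (∀ i j, i ≠ j → (α i).1 * (α j).2 - (α i).2 * (α j).1 ≠ 0) ∧ ξ ∈ Exceptional σ T α κ c τ}

section

variable {K : Type} [Field K] [NumberField K]

theorem height_eq (x : K) :
    height x = (Module.finrank ℚ K : ℝ) * Pool.Agent.W221.Exc.height x := by
  rw [Pool.Agent.W221.Exc.height_mul]
  rfl

theorem truncated_eq (T : Set (HeightOneSpectrum (RingOfIntegers K))) {q : ℕ} (α : Fin q → K × K)
    (x : K) : truncated T α x = Pool.Agent.R479.DK.NT1 T α x := rfl

theorem dist_eq (ξ τ : ℝ) (σ : K →+* ℝ) (x : K) :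
    |ξ - σ x| ≤ Real.exp (-τ * height x) ↔ dist ξ (σ x) ≤
      Real.exp (Pool.Agent.W221.Exc.height x) ^ (-((Module.finrank ℚ K : ℝ) * τ)) := by
  rw [← Real.exp_mul, Real.dist_eq, height_eq]
  have : -τ * ((Module.finrank ℚ K : ℝ) * Pool.Agent.W221.Exc.height x) =
      Pool.Agent.W221.Exc.height x * -((Module.finrank ℚ K : ℝ) * τ) := by ring
  rw [this]

/-- comparison of the two sets, one direction -/
theorem sup_set (σ : K →+* ℝ) (T : Set (HeightOneSpectrum (RingOfIntegers K))) {q : ℕ}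
    (α : Fin q → K × K) (hα0 : ∀ l, α l ≠ 0) (κ c τ : ℝ) :
    Pool.Agent.R479.DK.WEK σ T α κ (c / (Module.finrank ℚ K : ℝ))
      ((Module.finrank ℚ K : ℝ) * τ) ⊆ Exceptional σ T α κ c τ := by
  have hd : (0 : ℝ) < (Module.finrank ℚ K : ℝ) := by exact_mod_cast Module.finrank_pos
  intro ξ hξ
  unfold Pool.Agent.R479.DK.WEK at hξ
  unfold Exceptional
  simp only [Set.mem_ofPred_eq] at hξ ⊢
  refine hξ.mono ?_
  rintro x ⟨⟨h1, h2⟩, h3⟩
  refine ⟨h1, (dist_eq ξ τ σ x).2 h3, ?_⟩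
  rw [truncated_eq]
  refine lt_of_le_of_lt (Pool.Agent.R479.DK.NT1_le_NTc T α hα0 x h1) ?_
  rw [← Pool.Agent.W221.Exc.counting_mul, height_eq]
  calc (Module.finrank ℚ K : ℝ) * Pool.Agent.W221.Exc.counting T α x
      < (Module.finrank ℚ K : ℝ) * (((q : ℝ) - κ) * Pool.Agent.W221.Exc.height x +
        c / (Module.finrank ℚ K : ℝ)) := mul_lt_mul_of_pos_left h2 hd
    _ = _ := by field_simp

/-- comparison of the two sets, the other direction -/
theorem sub_set (σ : K →+* ℝ) (T : Set (HeightOneSpectrum (RingOfIntegers K))) {q : ℕ}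
    (α : Fin q → K × K) (hα0 : ∀ l, α l ≠ 0)
    (hα : ∀ i j, i ≠ j → (α i).1 * (α j).2 - (α i).2 * (α j).1 ≠ 0) (κ c τ : ℝ) :
    ∃ c' : ℝ, Exceptional σ T α κ c τ ⊆
      Pool.Agent.R479.DK.WEK σ T α κ c' ((Module.finrank ℚ K : ℝ) * τ) := by
  have hd : (0 : ℝ) < (Module.finrank ℚ K : ℝ) := by exact_mod_cast Module.finrank_pos
  obtain ⟨C, hC0, hC⟩ := Pool.Agent.R479.DK.NTc_le_NT1 T α hα0 hα
  refine ⟨(c + C) / (Module.finrank ℚ K : ℝ), fun ξ hξ => ?_⟩
  unfold Exceptional at hξ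
  unfold Pool.Agent.R479.DK.WEK
  simp only [Set.mem_ofPred_eq] at hξ ⊢
  refine hξ.mono ?_
  rintro x ⟨h1, h2, h3⟩
  refine ⟨⟨h1, ?_⟩, (dist_eq ξ τ σ x).1 h2⟩
  rw [truncated_eq, height_eq] at h3
  have h4 := hC x h1
  rw [← Pool.Agent.W221.Exc.counting_mul] at h4
  refine lt_of_mul_lt_mul_left ?_ hd.le
  calc (Module.finrank ℚ K : ℝ) * Pool.Agent.W221.Exc.counting T α x
      < ((q : ℝ) - κ) * ((Module.finrank ℚ K : ℝ) * Pool.Agent.W221.Exc.height x) + (c + C) := by
        linarith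
    _ = _ := by field_simp

theorem sel_of {q : ℕ} (hq : 2 ≤ q) {κ : ℝ} (h : κ ≤ 6 / 7 ∨ (q = 3 ∧ κ ≤ 1) ∨ q = 2) :
    Pool.Agent.H691R3.Sel.{0} q κ (2 - κ) := by
  rcases h with h | ⟨rfl, h⟩ | rfl
  · have h1 := Pool.Agent.H691R3.sel_all.{0} hq κ
    rwa [max_eq_left (by linarith)] at h1
  · exact Pool.Agent.W221.Exc.sel_below_one (by norm_num)
      (Pool.Agent.W221.Exc.sel_three_one 1 le_rfl) h
  · have h1 := Pool.Agent.H691R3.sel_two.{0} (q := 2) le_rfl κ
    have h2 : (2 : ℝ) - 2 * κ / ((2 : ℕ) : ℝ) = 2 - κ := by push_cast; ring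
    rwa [h2] at h1

end

/-- **The exact dimension over a number field with a real place.**

Let `K` be a number field, `σ` an embedding of `K` into the real numbers, `0 ≤ κ < 2` and `τ > 0`.

Let `T` be a finite set of primes of `K`, `α_1, …, α_q` (`q ≥ 2`) distinct points of the projective
line over `K` and `c` real. The set `Exceptional σ T α κ c τ` has Hausdorff dimension at least
`min 1 ((2 - κ) / τ)`, with equality if `κ ≤ 6/7`, or `q = 3` and `κ ≤ 1`, or `q = 2`.

If `κ ≤ 6/7`, the union `AllExceptional σ κ τ` of all these sets over all `T`, `q ≥ 2`, `α` and `c`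
still has dimension `min 1 ((2 - κ) / τ)`. -/
theorem result (K : Type) [Field K] [NumberField K] (σ : K →+* ℝ) (κ τ : ℝ) (hκ0 : 0 ≤ κ)
    (hκ2 : κ < 2) (hτ : 0 < τ) :
    (∀ (T : Set (HeightOneSpectrum (RingOfIntegers K))), T.Finite →
      ∀ (q : ℕ), 2 ≤ q → ∀ (α : Fin q → K × K), (∀ i, α i ≠ 0) →
        (∀ i j, i ≠ j → (α i).1 * (α j).2 - (α i).2 * (α j).1 ≠ 0) → ∀ c : ℝ,
          ENNReal.ofReal (min 1 ((2 - κ) / τ)) ≤ dimH (Exceptional σ T α κ c τ) ∧
          (κ ≤ 6 / 7 ∨ (q = 3 ∧ κ ≤ 1) ∨ q = 2 →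
            dimH (Exceptional σ T α κ c τ) = ENNReal.ofReal (min 1 ((2 - κ) / τ)))) ∧
    (κ ≤ 6 / 7 → dimH (AllExceptional σ κ τ) = ENNReal.ofReal (min 1 ((2 - κ) / τ))) := by
  have hd : (0 : ℝ) < (Module.finrank ℚ K : ℝ) := by exact_mod_cast Module.finrank_pos
  have hratio : (Module.finrank ℚ K : ℝ) * (2 - κ) / ((Module.finrank ℚ K : ℝ) * τ) =
      (2 - κ) / τ := by
    field_simp
  have hup : ∀ (T : Set (HeightOneSpectrum (RingOfIntegers K))), T.Finite →
      ∀ (q : ℕ), 2 ≤ q → ∀ (α : Fin q → K × K), (∀ i, α i ≠ 0) →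
        (∀ i j, i ≠ j → (α i).1 * (α j).2 - (α i).2 * (α j).1 ≠ 0) → ∀ c : ℝ,
          (κ ≤ 6 / 7 ∨ (q = 3 ∧ κ ≤ 1) ∨ q = 2) →
            dimH (Exceptional σ T α κ c τ) ≤ ENNReal.ofReal (min 1 ((2 - κ) / τ)) := by
    intro T hT q hq α h0 hα c h
    obtain ⟨c', hc'⟩ := sub_set σ T α h0 hα κ c τ
    refine (dimH_mono hc').trans ?_
    have h1 := Pool.Agent.R479.DK.WEK_le σ T hT hq α h0 hα κ c' ((Module.finrank ℚ K : ℝ) * τ)
      (2 - κ) hκ0 (by linarith) (by positivity) (sel_of hq h)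
    rwa [hratio] at h1
  have hlow : ∀ (T : Set (HeightOneSpectrum (RingOfIntegers K))),
      ∀ (q : ℕ), 2 ≤ q → ∀ (α : Fin q → K × K), (∀ i, α i ≠ 0) →
        (∀ i j, i ≠ j → (α i).1 * (α j).2 - (α i).2 * (α j).1 ≠ 0) → ∀ c : ℝ,
          ENNReal.ofReal (min 1 ((2 - κ) / τ)) ≤ dimH (Exceptional σ T α κ c τ) := by
    intro T q hq α h0 hα c
    refine le_trans ?_ (dimH_mono (sup_set σ T α h0 κ c τ))
    have h1 := Pool.Agent.R479.DK.WEK_ge σ T hq α h0 hα κ (c / (Module.finrank ℚ K : ℝ))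
      ((Module.finrank ℚ K : ℝ) * τ) hκ0 hκ2 (by positivity)
    rwa [hratio] at h1
  refine ⟨fun T hT q hq α h0 hα c => ⟨hlow T q hq α h0 hα c, fun h =>
      le_antisymm (hup T hT q hq α h0 hα c h) (hlow T q hq α h0 hα c)⟩, ?_⟩
  intro hκ
  apply le_antisymm
  · have := Pool.Agent.R479.DB.countable_primes K
    have := Pool.Agent.R479.DB.countable_nf K
    set J := Finset (HeightOneSpectrum (RingOfIntegers K)) × (Σ q : ℕ, (Fin q → K × K)) × ℕ with hJ
    have hJc : Countable J := inferInstance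
    set Z : J → Set ℝ := fun j => {ξ : ℝ | (2 ≤ j.2.1.1 ∧ (∀ i, j.2.1.2 i ≠ 0) ∧
      (∀ i k, i ≠ k → (j.2.1.2 i).1 * (j.2.1.2 k).2 - (j.2.1.2 i).2 * (j.2.1.2 k).1 ≠ 0)) ∧
      ξ ∈ Exceptional σ (j.1 : Set (HeightOneSpectrum (RingOfIntegers K))) j.2.1.2 κ
        (j.2.2 : ℝ) τ} with hZ
    refine le_trans (dimH_mono (t := ⋃ j, Z j) ?_) ?_
    · rintro ξ ⟨T, q, α, c, hT, hq, h1, h2, h3⟩
      rw [Set.mem_iUnion]
      obtain ⟨n, hn⟩ := exists_nat_ge c
      refine ⟨(hT.toFinset, ⟨q, α⟩, n), ⟨hq, h1, h2⟩, h3.mono ?_⟩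
      rintro x ⟨h4, h5, h6⟩
      refine ⟨h4, h5, ?_⟩
      simp only [Set.Finite.coe_toFinset]
      linarith
    · rw [dimH_iUnion]
      refine iSup_le fun j => ?_
      obtain ⟨T, ⟨q, α⟩, n⟩ := j
      by_cases h : 2 ≤ q ∧ (∀ i, α i ≠ 0) ∧
        (∀ i k, i ≠ k → (α i).1 * (α k).2 - (α i).2 * (α k).1 ≠ 0)
      · exact (dimH_mono fun z hz => hz.2).trans
          (hup (T : Set (HeightOneSpectrum (RingOfIntegers K))) T.finite_toSet q h.1 α h.2.1 h.2.2
            n (Or.inl hκ))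
      · have : Z (T, ⟨q, α⟩, n) = ∅ := by
          rw [Set.eq_empty_iff_forall_notMem]
          exact fun z hz => h hz.1
        rw [this, dimH_empty]
        exact zero_le
  · set α : Fin 2 → K × K := ![(0, 1), (1, 0)] with hα
    have h0 : ∀ i, α i ≠ 0 := by
      intro i
      fin_cases i <;> simp [hα]
    have h1 : ∀ i j, i ≠ j → (α i).1 * (α j).2 - (α i).2 * (α j).1 ≠ 0 := by
      intro i j hij
      fin_cases i <;> fin_cases j <;> simp_all
    refine (hlow ∅ 2 le_rfl α h0 h1 0).trans (dimH_mono ?_)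
    intro ξ hξ
    exact ⟨∅, 2, α, 0, Set.finite_empty, le_rfl, h0, h1, hξ⟩

end Pool.Agent.Results.MP_44a246_nt.ExactDimensionRealPlace
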