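import Mathlib
import Pool.Agent.R337.UE.Trunc

/-!
# The truncated Vojta inequality with discriminant term on all curves over all number fields, points
of all degrees: one thin exceptional set

Let `a_1, …, a_q` be `q ≥ 3` distinct rational numbers, for example `q = 3`. We consider ALL smooth
projective curves `X` over ALL number fields, all finite maps `t : X → ℙ¹` which are unramified
outside the fibres over the `a_j` and all reduced effective divisors `D` on `X` contained in these
fibres. By Belyi's theorem every reduced divisor on every curve over every number field is contained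
in the fibres over the `a_j` for a suitable `t`. Let `A` be the ring of the functions on `X` with
poles only over `∞`: a Dedekind domain, finite over `ℚ[t]`, whose field of constants can be any
number field `k`. Let `N` be the rank of `A` over `ℚ[t]` (this is `[k : ℚ]` times the degree of
`t`). If `E_j` is the ideal of the points over `a_j` which are not points of `D`, then
`q - (∑_j dim (A / E_j)) / N - 2` is the degree of `K_X + D` divided by the degree of `t`.

The points `P` of `X` (not over `∞`) over a number field `L` are the homomorphisms `φ : A → L`.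

We prove that for every `κ ≤ q`, for example `κ = 2`, there is ONE set `Z` of algebraic numbers,
which contains for every `r ≥ 2` only `O(B ^ (r e + δ))` of the about `B ^ (r (r + 1))` numbers of
degree `r` and height at most `log B`, such that for all curves `X`, all maps `t`, all divisors `D`
and all `ε > 0` there is a constant `C₀` with
`(2 + deg (K_X + D) / deg t - κ - ε) h(x) ≤ N_S^{(1)}(D, P) + d(L) + ∑_{p ∈ S} log p + C₀`
for all points `P` of `X` over the numbers `x = t(P)` of degree at least two which are not in `Z`,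
all number fields `L` over which `P` is defined and all finite sets `S` of primes: `C₀` does not
depend on the degree of `P`. For `κ = 2` this is the inequality of the conjecture. The truncated
counting function, the logarithmic discriminant and the height are the absolute ones: those relative
to `k` divided by `[k : ℚ]`, up to the constant `log |disc k| / [k : ℚ]` for the discriminant.
-/

set_option autoImplicit false

namespace Pool.Agent.Results.MP_44a246_nt.UniformCurves

open Polynomial IntermediateField IsDedekindDomain NumberField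

/-- The absolute logarithmic height `(log M(f)) / deg f` of the roots of an irreducible integral
polynomial `f` (`M` is the Mahler measure). -/
noncomputable def height (f : ℤ[X]) : ℝ :=
  Real.log (f.map (Int.castRingHom ℂ)).mahlerMeasure / f.natDegree

/-- The algebraic numbers of degree `r` and height at most `log B`. -/
def Numbers (r : ℕ) (B : ℝ) : Set ℂ :=
  {x | ∃ f : ℤ[X], Irreducible f ∧ f.natDegree = r ∧ aeval x f = 0 ∧ height f ≤ Real.log B}

/-- the function `t` -/
noncomputable def coord (A : Type) [CommRing A] [Algebra ℚ[X] A] : A := algebraMap ℚ[X] A X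

open Classical in
/-- The truncated counting function `N_S^{(1)}(D, P)` of the divisor `D` whose part `D_j`
over `a_j` has the equations `y_{j 1} = ⋯ = y_{j u_j} = 0`: the sum of `log N(v) / [L : ℚ]` over
the primes `v` of `L`, not above primes of `S`, at which `P = φ` reduces to a point of `D`, that
is, `|t(P)|_v ≤ 1` and for some `j` one has `|t(P) - a_j|_v < 1` and `|y_{j i}(P)|_v < 1` for all
`i`. -/
noncomputable def truncated {A : Type} [CommRing A] [Algebra ℚ[X] A] {q : ℕ} (S : Finset ℕ)
    (a : Fin q → ℚ) (u : Fin q → ℕ) (y : ∀ j, Fin (u j) → A)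
    (L : IntermediateField ℚ ℂ) [NumberField L] (φ : A →+* L) : ℝ :=
  (∑ᶠ v : HeightOneSpectrum (𝓞 L),
      if (∀ p ∈ S, (p : 𝓞 L) ∉ v.asIdeal) ∧ v.valuation L (φ (coord A)) ≤ 1 ∧
        ∃ j, v.valuation L (φ (coord A) - (a j : L)) < 1 ∧ ∀ i, v.valuation L (φ (y j i)) < 1
      then Real.log (Ideal.absNorm v.asIdeal) else 0) / Module.finrank ℚ L

/-- The logarithmic discriminant `log |disc L| / [L : ℚ]`. -/
noncomputable def logDisc (L : IntermediateField ℚ ℂ) [NumberField L] : ℝ :=
  Real.log |(NumberField.discr L : ℝ)| / Module.finrank ℚ L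

/-- `q - (∑_j dim (A / E_j)) / N`, where `N` is the rank of `A` over `ℚ[t]`: the number
`2 + deg (K_X + D) / deg t`. -/
noncomputable def degree {A : Type} [CommRing A] [Algebra ℚ A] [Algebra ℚ[X] A] {q : ℕ}
    (E : Fin q → Ideal A) : ℝ :=
  q - (∑ j, (Module.finrank ℚ (A ⧸ E j) : ℝ)) / Module.finrank ℚ[X] A

/-- The number of number fields of degree `r` and discriminant at most `Δ` is
`O(Δ ^ (alpha r c η))`: here `alpha r c η` is the smaller of
`(r - 1) (r + 2) / (4 ⌈r / 2⌉)` and `c r ^ η`. -/
noncomputable def alpha (r : ℕ) (c η : ℝ) : ℝ :=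
  min (((r : ℝ) - 1) * (r + 2) / (4 * ((r + 1) / 2 : ℕ))) (c * (r : ℝ) ^ η)

/-- The exponent of the theorem: with `m = min q (r + 1)`, the smaller of `α (q - κ)` and
`((q α - 2) (r + 1 - m) + m α (q - κ)) / (q α + m - 2)`. It is smaller than `r + 1` if `κ ≥ 0`. -/
noncomputable def exponent (α : ℝ) (r q : ℕ) (κ : ℝ) : ℝ :=
  min (α * (q - κ)) (((q * α - 2) * (r + 1 - (min q (r + 1) : ℕ)) +
    (min q (r + 1) : ℕ) * α * (q - κ)) / (q * α + (min q (r + 1) : ℕ) - 2))

open Classical in
lemma truncated_eq {A : Type} [CommRing A] [Algebra ℚ[X] A] {q : ℕ} (S : Finset ℕ)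
    (a : Fin q → ℚ) (u : Fin q → ℕ) (y : ∀ j, Fin (u j) → A)
    (L : IntermediateField ℚ ℂ) [NumberField L] (φ : A →+* L) :
    truncated S a u y L φ = Pool.Agent.W223.CV.cc S (fun v : HeightOneSpectrum (𝓞 L) =>
      v.valuation L (φ (Pool.Agent.W223.AC.tt A)) ≤ 1 ∧
        ∃ j, v.valuation L (φ (Pool.Agent.W223.AC.tt A) - (a j : L)) < 1 ∧
          ∀ i, v.valuation L (φ (y j i)) < 1) / Module.finrank ℚ L := by
  unfold truncated
  refine congrArg (fun t : ℝ => t / Module.finrank ℚ L) ?_
  unfold Pool.Agent.W223.CV.cc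
  refine finsum_congr fun v => ?_
  by_cases h : (∀ p ∈ S, (p : 𝓞 L) ∉ v.asIdeal) ∧ v.valuation L (φ (coord A)) ≤ 1 ∧
      ∃ j, v.valuation L (φ (coord A) - (a j : L)) < 1 ∧ ∀ i, v.valuation L (φ (y j i)) < 1
  · rw [if_pos h]
    exact (Pool.Agent.W223.CV.ct_pos h).symm
  · rw [if_neg h]
    exact (Pool.Agent.W223.CV.ct_neg h).symm

/-- **The truncated Vojta inequality on all curves over all number fields, one exceptional set.**
Let `η > 0`. There is `c ≥ 1` such that for all distinct rational numbers `a_1, …, a_q`, `q ≥ 3`,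
and all real `κ ≤ q` there is a set `Z` of complex numbers with the following two properties.

(1) For all `r ≥ 2` and `δ > 0` there is `C` such that `Z` contains at most
`C * B ^ (r * exponent (alpha r c η) r q κ + δ)` algebraic numbers of degree `r` and height at most
`log B`, for all `B ≥ 1`. For `κ ≥ 0` the exponent is smaller than `r (r + 1) + δ`.

(2) Let `A` be a Dedekind domain, finite over `ℚ[t]` and containing it (the ring of functions of a
smooth affine curve over a number field which is finite over the `t`-line), of rank `N`, let `D_j`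
be the closed subset `y_{j 1} = ⋯ = y_{j u_j} = 0` and `E_j ≠ 0` an ideal of `A` such that `D_j`
and the zeros of `E_j` together contain the fibre over `a_j`, and let `ε > 0`. Then there is a
constant `C₀` such that for all algebraic numbers `x` of degree at least two which are not in `Z`,
all points `P` of the curve with `t(P) = x`, all number fields `L` over which `P` is defined and all
finite sets `S` of primes
`(q - (∑_j dim (A / E_j)) / N - κ - ε) h(x) ≤ N_S^{(1)}(D, P) + d(L) + ∑_{p ∈ S} log p + C₀`. -/
theorem result : ∀ η : ℝ, 0 < η → ∃ c : ℝ, 1 ≤ c ∧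
    ∀ q : ℕ, 3 ≤ q → ∀ a : Fin q → ℚ, Function.Injective a → ∀ κ : ℝ, κ ≤ q →
    ∃ Z : Set ℂ,
      (∀ r : ℕ, 2 ≤ r → (0 ≤ κ → exponent (alpha r c η) r q κ < r + 1) ∧
        ∀ δ : ℝ, 0 < δ → ∃ C : ℝ, ∀ B : ℝ, 1 ≤ B → (Z ∩ Numbers r B).Finite ∧
          ((Z ∩ Numbers r B).ncard : ℝ) ≤
            C * B ^ ((r : ℝ) * exponent (alpha r c η) r q κ + δ)) ∧
      ∀ (A : Type) [CommRing A] [IsDedekindDomain A] [Algebra ℚ A] [Algebra ℚ[X] A]
        [IsScalarTower ℚ ℚ[X] A] [Module.Finite ℚ[X] A] [FaithfulSMul ℚ[X] A]
        (u : Fin q → ℕ) (y : ∀ j, Fin (u j) → A) (E : Fin q → Ideal A), (∀ j, E j ≠ ⊥) →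
        (∀ j i, ∀ e ∈ E j,
          y j i * e ∈ (Ideal.span {coord A - algebraMap ℚ[X] A (C (a j))}).radical) →
        ∀ ε : ℝ, 0 < ε → ∃ C₀ : ℝ,
          ∀ x : ℂ, x ∉ Z → ∀ f : ℤ[X], Irreducible f → 2 ≤ f.natDegree → aeval x f = 0 →
          ∀ (L : IntermediateField ℚ ℂ) [NumberField L] (φ : A →+* L), (φ (coord A) : ℂ) = x →
          ∀ S : Finset ℕ, (∀ p ∈ S, p.Prime) →
            (degree E - κ - ε) * height f ≤
              truncated S a u y L φ + logDisc L + ∑ p ∈ S, Real.log p + C₀ := by
  intro η hη
  obtain ⟨c, hc, hcount⟩ := Pool.Agent.R337.UE.exc_count η hη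
  refine ⟨c, hc, ?_⟩
  intro q hq a ha κ hκ
  refine ⟨Pool.Agent.R337.UE.exc a κ, ?_, ?_⟩
  · intro r hr
    exact ⟨fun h => Pool.Agent.R337.UE.exponent_lt hr hq hc hη h,
      fun δ hδ => hcount r q hr hq a ha κ δ hκ hδ⟩
  · intro A _ _ _ _ _ _ _ u y E hE hyE ε hε
    obtain ⟨C₀, hC₀⟩ := Pool.Agent.R337.UE.trunc A q hq a κ u y E hE hyE ε hε
    refine ⟨C₀, ?_⟩
    intro x hxZ f hf hd hx L _ φ hφ S hS
    rw [truncated_eq]
    exact hC₀ x hxZ f hf hd hx L φ hφ S hS

end Pool.Agent.Results.MP_44a246_nt.UniformCurves
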